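import Mathlib

set_option autoImplicit false

namespace Pool.Agent.Helper38.VdW

open Finset

/-- the `n`-term progression with first term `p.1` and difference `p.2` -/
def ap (n : ℕ) (p : ℕ × ℕ) : Finset ℕ := (Finset.range n).image (fun i => p.1 + i * p.2)

/-- all `n`-term progressions in `[1, N]`, as pairs (first term, difference) -/
def fam (N n : ℕ) : Finset (ℕ × ℕ) :=
  ((Finset.Icc 1 N) ×ˢ (Finset.Icc 1 N)).filter (fun p => p.1 + (n - 1) * p.2 ≤ N)

/-- pairs of `n`-term progressions with different differences and two common terms -/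
def cross (N n : ℕ) : Finset ((ℕ × ℕ) × (ℕ × ℕ)) :=
  (fam N n ×ˢ fam N n).filter (fun q => q.1.2 < q.2.2 ∧ 2 ≤ (ap n q.1 ∩ ap n q.2).card)

def un (n : ℕ) (q : (ℕ × ℕ) × (ℕ × ℕ)) : Finset ℕ := ap n q.1 ∪ ap n q.2

def cnt {ι : Type} (S : Finset ι) (A : ι → Finset ℕ) (X : Finset ℕ) : ℕ :=
  (S.filter (fun i => A i ⊆ X)).card

theorem cnt_diff {ι : Type} (S : Finset ι) (A : ι → Finset ℕ) (X : Finset ℕ) (x y : ℕ)
    (hxy : x ≠ y) (hx : x ∉ X) (hy : y ∉ X) :
    (cnt S A (insert x (insert y X)) : ℝ) - cnt S A (insert x X) - cnt S A (insert y X)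
      + cnt S A X =
    ((S.filter (fun i => x ∈ A i ∧ y ∈ A i ∧ A i ⊆ insert x (insert y X))).card : ℝ) := by
  unfold cnt
  simp only [Finset.card_filter, Nat.cast_sum, Nat.cast_ite, Nat.cast_one, Nat.cast_zero]
  rw [← Finset.sum_sub_distrib, ← Finset.sum_sub_distrib, ← Finset.sum_add_distrib]
  apply Finset.sum_congr rfl
  intro i _
  have h1 : A i ⊆ insert x X ↔ (A i ⊆ insert x (insert y X) ∧ y ∉ A i) := by
    constructor
    · intro h
      refine ⟨h.trans (Finset.insert_subset_insert _ (Finset.subset_insert _ _)), fun hyA => ?_⟩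
      rcases Finset.mem_insert.mp (h hyA) with h' | h'
      · exact hxy h'.symm
      · exact hy h'
    · rintro ⟨h, hyA⟩ z hz
      rcases Finset.mem_insert.mp (h hz) with h' | h'
      · rw [h']; exact Finset.mem_insert_self _ _
      · rcases Finset.mem_insert.mp h' with h' | h'
        · exact absurd (h' ▸ hz) hyA
        · exact Finset.mem_insert_of_mem h'
  have h2 : A i ⊆ insert y X ↔ (A i ⊆ insert x (insert y X) ∧ x ∉ A i) := by
    constructor
    · intro h
      refine ⟨h.trans (Finset.subset_insert _ _), fun hxA => ?_⟩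
      rcases Finset.mem_insert.mp (h hxA) with h' | h'
      · exact hxy h'
      · exact hx h'
    · rintro ⟨h, hxA⟩ z hz
      rcases Finset.mem_insert.mp (h hz) with h' | h'
      · exact absurd (h' ▸ hz) hxA
      · exact h'
  have h3 : A i ⊆ X ↔ (A i ⊆ insert x (insert y X) ∧ x ∉ A i ∧ y ∉ A i) := by
    constructor
    · intro h
      exact ⟨h.trans ((Finset.subset_insert _ _).trans (Finset.subset_insert _ _)),
        fun hxA => hx (h hxA), fun hyA => hy (h hyA)⟩
    · rintro ⟨h, hxA, hyA⟩ z hz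
      rcases Finset.mem_insert.mp (h hz) with h' | h'
      · exact absurd (h' ▸ hz) hxA
      · rcases Finset.mem_insert.mp h' with h' | h'
        · exact absurd (h' ▸ hz) hyA
        · exact h'
  by_cases h : A i ⊆ insert x (insert y X) <;> by_cases hxA : x ∈ A i <;>
    by_cases hyA : y ∈ A i <;> simp [h1, h2, h3, h, hxA, hyA]

theorem mem_ap {n : ℕ} {p : ℕ × ℕ} {z : ℕ} : z ∈ ap n p ↔ ∃ i < n, p.1 + i * p.2 = z := by
  simp [ap]

theorem mem_fam {N n : ℕ} {p : ℕ × ℕ} : p ∈ fam N n ↔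
    1 ≤ p.1 ∧ 1 ≤ p.2 ∧ p.1 ≤ N ∧ p.2 ≤ N ∧ p.1 + (n - 1) * p.2 ≤ N := by
  simp [fam]; tauto

theorem ap_succ (n : ℕ) (p : ℕ × ℕ) : ap (n + 1) p = insert (p.1 + n * p.2) (ap n p) := by
  unfold ap
  rw [Finset.range_add_one, Finset.image_insert]

/-- The pointwise inequality behind the strategy. -/
theorem key (N n : ℕ) (hn : 1 ≤ n) (x y : ℕ) (hxy : x ≠ y) (Z : Finset ℕ) :
    ((fam N n).filter (fun p => x ∈ ap n p ∧ y ∈ ap n p ∧ ap n p ⊆ Z)).card ≤
      1 + ((fam N (n + 1)).filter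
        (fun p => x ∈ ap (n + 1) p ∧ y ∈ ap (n + 1) p ∧ ap (n + 1) p ⊆ Z)).card
      + ((cross N n).filter (fun q => x ∈ un n q ∧ y ∈ un n q ∧ un n q ⊆ Z)).card := by
  classical
  set A := (fam N n).filter (fun p => x ∈ ap n p ∧ y ∈ ap n p ∧ ap n p ⊆ Z) with hA
  set A' := (fam N (n + 1)).filter
        (fun p => x ∈ ap (n + 1) p ∧ y ∈ ap (n + 1) p ∧ ap (n + 1) p ⊆ Z) with hA'
  set C := (cross N n).filter (fun q => x ∈ un n q ∧ y ∈ un n q ∧ un n q ⊆ Z) with hC
  have hmA : ∀ p, p ∈ A ↔ p ∈ fam N n ∧ x ∈ ap n p ∧ y ∈ ap n p ∧ ap n p ⊆ Z := by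
    intro p; rw [hA, Finset.mem_filter]
  -- non-maximal ones
  have hnon : A.filter (fun p => ∃ q ∈ A, q.2 = p.2 ∧ p.1 < q.1) ⊆ A' := by
    intro p hp
    rw [Finset.mem_filter] at hp
    obtain ⟨hpA, q, hqA, hq2, hlt⟩ := hp
    rw [hmA] at hpA hqA
    obtain ⟨hpf, hpx, hpy, hpZ⟩ := hpA
    obtain ⟨hqf, hqx, hqy, hqZ⟩ := hqA
    obtain ⟨i, hi, hix⟩ := mem_ap.mp hpx
    obtain ⟨j, hj, hjx⟩ := mem_ap.mp hqx
    rw [hq2] at hjx
    have hd : 1 ≤ p.2 := (mem_fam.mp hpf).2.1
    have hij : j < i := by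
      by_contra hcon
      push Not at hcon
      have : i * p.2 ≤ j * p.2 := Nat.mul_le_mul_right _ hcon
      omega
    obtain ⟨e, he⟩ : ∃ e, i = j + e := ⟨i - j, by omega⟩
    have he1 : 1 ≤ e := by omega
    have hq1 : q.1 = p.1 + e * p.2 := by
      rw [he] at hix
      have : (j + e) * p.2 = j * p.2 + e * p.2 := by ring
      omega
    have hlast : p.1 + n * p.2 = q.1 + (n - e) * p.2 := by
      rw [hq1]
      have : n = e + (n - e) := by omega
      conv_lhs => rw [this]
      ring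
    have hlastmem : p.1 + n * p.2 ∈ ap n q := by
      rw [mem_ap]
      refine ⟨n - e, by omega, ?_⟩
      rw [hq2, hlast]
    rw [hA', Finset.mem_filter, mem_fam]
    obtain ⟨f1, f2, f3, f4, f5⟩ := mem_fam.mp hpf
    obtain ⟨g1, g2, g3, g4, g5⟩ := mem_fam.mp hqf
    refine ⟨⟨f1, f2, f3, f4, ?_⟩, ?_, ?_, ?_⟩
    · rw [Nat.add_sub_cancel, hlast]
      rw [hq2] at g5
      have : (n - e) * p.2 ≤ (n - 1) * p.2 := Nat.mul_le_mul_right _ (by omega)
      omega
    · rw [ap_succ]; exact Finset.mem_insert_of_mem hpx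
    · rw [ap_succ]; exact Finset.mem_insert_of_mem hpy
    · rw [ap_succ]; exact Finset.insert_subset (hqZ hlastmem) hpZ
  -- maximal ones
  set M := A.filter (fun p => ¬ ∃ q ∈ A, q.2 = p.2 ∧ p.1 < q.1) with hM
  have hsplit : A.card = (A.filter (fun p => ∃ q ∈ A, q.2 = p.2 ∧ p.1 < q.1)).card + M.card :=
    (Finset.card_filter_add_card_filter_not _).symm
  have huniq : ∀ p ∈ M, ∀ q ∈ M, p.2 = q.2 → p = q := by
    intro p hp q hq h
    rw [hM, Finset.mem_filter] at hp hq
    push Not at hp hq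
    have h1 := hp.2 q hq.1 h.symm
    have h2 := hq.2 p hp.1 h
    exact Prod.ext (by omega) h
  have hMC : M.card ≤ 1 + C.card := by
    rcases M.eq_empty_or_nonempty with h | h
    · rw [h]; simp
    · obtain ⟨p0, hp0, hmin⟩ := Finset.exists_min_image M (fun p => p.2) h
      have hinj : (M.erase p0).card ≤ C.card := by
        apply Finset.card_le_card_of_injOn (fun p => (p0, p))
        · intro p hp
          simp only [Finset.mem_coe, Finset.mem_erase] at hp ⊢
          obtain ⟨hne, hpM⟩ := hp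
          have hlt : p0.2 < p.2 := by
            refine lt_of_le_of_ne (hmin p hpM) fun h => hne ?_
            exact (huniq p0 hp0 p hpM h).symm
          rw [hM, Finset.mem_filter] at hp0 hpM
          obtain ⟨a1, a2, a3, a4⟩ := (hmA _).mp hp0.1
          obtain ⟨b1, b2, b3, b4⟩ := (hmA _).mp hpM.1
          rw [hC, Finset.mem_filter]
          refine ⟨?_, Finset.mem_union_left _ a2, Finset.mem_union_left _ a3,
            Finset.union_subset a4 b4⟩
          rw [cross, Finset.mem_filter, Finset.mem_product]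
          refine ⟨⟨a1, b1⟩, hlt, ?_⟩
          have : ({x, y} : Finset ℕ) ⊆ ap n p0 ∩ ap n p := by
            intro z hz
            rw [Finset.mem_insert, Finset.mem_singleton] at hz
            rw [Finset.mem_inter]
            rcases hz with rfl | rfl
            · exact ⟨a2, b2⟩
            · exact ⟨a3, b3⟩
          calc 2 = ({x, y} : Finset ℕ).card := (Finset.card_pair hxy).symm
            _ ≤ _ := Finset.card_le_card this
        · intro p _ q _ h
          exact (Prod.mk.inj h).2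
      rw [Finset.card_erase_of_mem hp0] at hinj
      omega
  have := Finset.card_le_card hnon
  omega

end Pool.Agent.Helper38.VdW
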