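import Mathlib

set_option autoImplicit false

namespace Pool.Agent.Helper38.VdW

open Finset

/-- average of `f (M ∪ R)` over all subsets `R` of `U` -/
noncomputable def Psi (f : Finset ℕ → ℝ) (M U : Finset ℕ) : ℝ :=
  (∑ R ∈ U.powerset, f (M ∪ R)) / 2 ^ U.card

theorem Psi_empty (f : Finset ℕ → ℝ) (M : Finset ℕ) : Psi f M ∅ = f M := by
  simp [Psi]

theorem Psi_insert (f : Finset ℕ → ℝ) (M U : Finset ℕ) (x : ℕ) (hx : x ∉ U) :
    Psi f M (insert x U) = (Psi f M U + Psi f (insert x M) U) / 2 := by
  unfold Psi
  rw [Finset.sum_powerset_insert hx, Finset.card_insert_of_notMem hx, pow_succ]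
  have : ∀ R ∈ U.powerset, f (M ∪ insert x R) = f (insert x M ∪ R) := by
    intro R _
    congr 1
    ext z; simp
  rw [Finset.sum_congr rfl this]
  field_simp

/-- score of a vertex -/
noncomputable def score (f : Finset ℕ → ℝ) (M U : Finset ℕ) (x : ℕ) : ℝ :=
  Psi f (insert x M) (U.erase x) - Psi f M (U.erase x)

theorem Psi_mono_ex (f : Finset ℕ → ℝ) (M U : Finset ℕ) (h : 0 < Psi f M U) :
    ∃ R ⊆ U, 0 < f (M ∪ R) := by
  by_contra hcon
  push Not at hcon
  have : (∑ R ∈ U.powerset, f (M ∪ R)) ≤ 0 :=
    Finset.sum_nonpos (fun R hR => hcon R (Finset.mem_powerset.mp hR))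
  have h2 : Psi f M U ≤ 0 := by
    unfold Psi
    exact div_nonpos_of_nonpos_of_nonneg this (by positivity)
  linarith

theorem step (f : Finset ℕ → ℝ) (M U : Finset ℕ) (x y : ℕ) (hx : x ∈ U) (hy : y ∈ U) (hxy : y ≠ x)
    (hMU : Disjoint M U) (hs : score f M U y ≤ score f M U x)
    (hD : ∀ X : Finset ℕ, X ⊆ M ∪ U → x ∉ X → y ∉ X →
      f (insert x (insert y X)) - f (insert x X) - f (insert y X) + f X ≤ 1) :
    Psi f M U - 1 / 4 ≤ Psi f (insert x M) ((U.erase x).erase y) := by
  set W := (U.erase x).erase y with hW
  have hxW : x ∉ W := by simp [hW]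
  have hyW : y ∉ W := by simp [hW]
  have hyx : y ∈ U.erase x := Finset.mem_erase.mpr ⟨hxy, hy⟩
  have hxy' : x ∈ U.erase y := Finset.mem_erase.mpr ⟨hxy.symm, hx⟩
  have e1 : U.erase x = insert y W := by rw [hW, Finset.insert_erase hyx]
  have e2 : U.erase y = insert x W := by
    rw [hW, Finset.erase_right_comm, Finset.insert_erase hxy']
  have e0 : U = insert x (insert y W) := by rw [← e1, Finset.insert_erase hx]
  have hxyW : x ∉ insert y W := by rw [← e1]; simp
  have hyxW : y ∉ insert x W := by rw [← e2]; simp
  -- the four corners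
  set g11 := Psi f (insert x (insert y M)) W
  set g10 := Psi f (insert x M) W
  set g01 := Psi f (insert y M) W
  set g00 := Psi f M W
  have hcomm : insert y (insert x M) = insert x (insert y M) := Finset.insert_comm _ _ _
  have s1 : score f M U x = (g10 + g11) / 2 - (g00 + g01) / 2 := by
    unfold score
    rw [e1, Psi_insert _ _ _ _ hyW, Psi_insert _ _ _ _ hyW, hcomm]
  have s2 : score f M U y = (g01 + g11) / 2 - (g00 + g10) / 2 := by
    unfold score
    rw [e2, Psi_insert _ _ _ _ hxW, Psi_insert _ _ _ _ hxW]
  have s0 : Psi f M U = ((g00 + g01) / 2 + (g10 + g11) / 2) / 2 := by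
    conv_lhs => rw [e0]
    rw [Psi_insert _ _ _ _ hxyW, Psi_insert _ _ _ _ hyW, Psi_insert _ _ _ _ hyW, hcomm]
  have hsum : g11 - g10 - g01 + g00 ≤ 1 := by
    have : g11 - g10 - g01 + g00 = (∑ R ∈ W.powerset,
        (f (insert x (insert y M) ∪ R) - f (insert x M ∪ R) - f (insert y M ∪ R) + f (M ∪ R)))
          / 2 ^ W.card := by
      simp only [g11, g10, g01, g00, Psi]
      rw [Finset.sum_add_distrib, Finset.sum_sub_distrib, Finset.sum_sub_distrib]
      ring
    rw [this, div_le_one (by positivity)]
    calc _ ≤ ∑ R ∈ W.powerset, (1 : ℝ) := by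
          apply Finset.sum_le_sum
          intro R hR
          have hR' : R ⊆ W := Finset.mem_powerset.mp hR
          have hWU : W ⊆ U := by
            rw [hW]; exact (Finset.erase_subset _ _).trans (Finset.erase_subset _ _)
          have hxM : x ∉ M := fun h => (Finset.disjoint_left.mp hMU h) hx
          have hyM : y ∉ M := fun h => (Finset.disjoint_left.mp hMU h) hy
          have := hD (M ∪ R) (Finset.union_subset_union_right (hR'.trans hWU))
            (by simp only [Finset.mem_union, not_or]; exact ⟨hxM, fun h => hxW (hR' h)⟩)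
            (by simp only [Finset.mem_union, not_or]; exact ⟨hyM, fun h => hyW (hR' h)⟩)
          simpa [Finset.insert_union] using this
      _ = 2 ^ W.card := by
          rw [Finset.sum_const, Finset.card_powerset]; simp
  rw [s1, s2] at hs
  rw [s0]
  linarith

/-- Maker's pick: a vertex of largest score (`0` if there is none). -/
noncomputable def pick (f : Finset ℕ → ℝ) (M U : Finset ℕ) : ℕ :=
  if h : U.Nonempty then (Finset.exists_max_image U (score f M U) h).choose else 0

theorem pick_mem (f : Finset ℕ → ℝ) (M U : Finset ℕ) (h : U.Nonempty) : pick f M U ∈ U := by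
  unfold pick
  rw [dif_pos h]
  exact (Finset.exists_max_image U (score f M U) h).choose_spec.1

theorem pick_max (f : Finset ℕ → ℝ) (M U : Finset ℕ) (h : U.Nonempty) (y : ℕ) (hy : y ∈ U) :
    score f M U y ≤ score f M U (pick f M U) := by
  unfold pick
  rw [dif_pos h]
  exact (Finset.exists_max_image U (score f M U) h).choose_spec.2 y hy

/-- Maker's set of the history `h` (entries with even index). -/
def mk (h : List ℕ) : Finset ℕ :=
  ((Finset.range h.length).filter (fun i => Even i)).image (fun i => h.getD i 0)

/-- all claimed points of the history -/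
def al (h : List ℕ) : Finset ℕ := (Finset.range h.length).image (fun i => h.getD i 0)

/-- Maker's strategy -/
noncomputable def strat (f : Finset ℕ → ℝ) (N : ℕ) (h : List ℕ) : ℕ :=
  pick f (mk h) (Finset.Icc 1 N \ al h)

def mkS (m : ℕ → ℕ) (k : ℕ) : Finset ℕ := ((Finset.range k).filter (fun i => Even i)).image m
def alS (m : ℕ → ℕ) (k : ℕ) : Finset ℕ := (Finset.range k).image m

theorem mk_ofFn (m : ℕ → ℕ) (k : ℕ) : mk (List.ofFn (fun i : Fin k => m i.val)) = mkS m k := by
  unfold mk mkS
  rw [List.length_ofFn]
  apply Finset.image_congr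
  intro i hi
  simp only [Finset.mem_coe, Finset.mem_filter, Finset.mem_range] at hi
  simp [List.getD, hi.1]

theorem al_ofFn (m : ℕ → ℕ) (k : ℕ) : al (List.ofFn (fun i : Fin k => m i.val)) = alS m k := by
  unfold al alS
  rw [List.length_ofFn]
  apply Finset.image_congr
  intro i hi
  simp only [Finset.coe_range, Set.mem_Iio] at hi
  simp [List.getD, hi]

/-- The abstract strategy theorem. -/
theorem maker (f : Finset ℕ → ℝ) (P : Finset ℕ → Prop) (N : ℕ)
    (hP : ∀ X Y, X ⊆ Y → P X → P Y) (hfP : ∀ X, 0 < f X → P X)
    (hD : ∀ (x y : ℕ) (X : Finset ℕ), x ≠ y → X ⊆ Finset.Icc 1 N → x ∈ Finset.Icc 1 N →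
      y ∈ Finset.Icc 1 N → x ∉ X → y ∉ X →
      f (insert x (insert y X)) - f (insert x X) - f (insert y X) + f X ≤ 1)
    (h0 : (N : ℝ) / 8 < Psi f ∅ (Finset.Icc 1 N)) :
    ∃ σ : List ℕ → ℕ, ∀ m : ℕ → ℕ,
      (∀ k < N, Even k → m k = σ (List.ofFn (fun i : Fin k => m i.val))) →
      (∀ k < N, Odd k → m k ∈ Finset.Icc 1 N ∧ ∀ i < k, m i ≠ m k) →
      (∀ k < N, Even k → m k ∈ Finset.Icc 1 N ∧ ∀ i < k, m i ≠ m k) ∧
      P (mkS m N) := by
  refine ⟨strat f N, fun m hσ hB => ?_⟩
  -- legality
  have hleg : ∀ k ≤ N, alS m k ⊆ Finset.Icc 1 N ∧ (alS m k).card = k := by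
    intro k
    induction k with
    | zero => intro _; simp [alS]
    | succ k ih =>
      intro hk
      obtain ⟨ih1, ih2⟩ := ih (by omega)
      have hnew : m k ∈ Finset.Icc 1 N ∧ m k ∉ alS m k := by
        rcases Nat.even_or_odd k with he | ho
        · have hmk := hσ k (by omega) he
          rw [strat, mk_ofFn, al_ofFn] at hmk
          have hne : (Finset.Icc 1 N \ alS m k).Nonempty := by
            rw [← Finset.card_pos, Finset.card_sdiff_of_subset ih1, ih2]
            simp; omega
          have := pick_mem f (mkS m k) _ hne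
          rw [← hmk] at this
          exact Finset.mem_sdiff.mp this
        · obtain ⟨h1, h2⟩ := hB k (by omega) ho
          refine ⟨h1, ?_⟩
          intro hmem
          simp only [alS, Finset.mem_image, Finset.mem_range] at hmem
          obtain ⟨i, hi, hie⟩ := hmem
          exact h2 i hi hie
      have hal : alS m (k+1) = insert (m k) (alS m k) := by
        unfold alS
        rw [Finset.range_add_one, Finset.image_insert]
      rw [hal]
      constructor
      · exact Finset.insert_subset hnew.1 ih1
      · rw [Finset.card_insert_of_notMem hnew.2, ih2]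
  have hmem : ∀ k < N, m k ∈ Finset.Icc 1 N ∧ m k ∉ alS m k := by
    intro k hk
    obtain ⟨h1, h2⟩ := hleg (k+1) hk
    obtain ⟨h3, h4⟩ := hleg k hk.le
    have hal : alS m (k+1) = insert (m k) (alS m k) := by
      unfold alS
      rw [Finset.range_add_one, Finset.image_insert]
    rw [hal] at h1 h2
    refine ⟨h1 (Finset.mem_insert_self _ _), ?_⟩
    intro h
    rw [Finset.insert_eq_self.mpr h] at h2
    omega
  refine ⟨?_, ?_⟩
  · intro k hk he
    refine ⟨(hmem k hk).1, ?_⟩
    intro i hi hEq
    apply (hmem k hk).2
    simp only [alS, Finset.mem_image, Finset.mem_range]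
    exact ⟨i, hi, hEq⟩
  · -- potential
    have hpot : ∀ j, 2 * j ≤ N →
        Psi f ∅ (Finset.Icc 1 N) - (j : ℝ) / 4 ≤
          Psi f (mkS m (2*j)) (Finset.Icc 1 N \ alS m (2*j)) := by
      intro j
      induction j with
      | zero => intro _; simp [mkS, alS]
      | succ j ih =>
        intro hj
        have ih := ih (by omega)
        set M := mkS m (2*j) with hM
        set U := Finset.Icc 1 N \ alS m (2*j) with hU
        have hx1 := hmem (2*j) (by omega)
        have hy1 := hmem (2*j+1) (by omega)
        set x := m (2*j) with hx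
        set y := m (2*j+1) with hy
        have hal : alS m (2*j+1) = insert x (alS m (2*j)) := by
          unfold alS
          rw [Finset.range_add_one, Finset.image_insert]
        have hal2 : alS m (2*j+2) = insert y (insert x (alS m (2*j))) := by
          rw [← hal]
          unfold alS
          rw [Finset.range_add_one (n := 2*j+1), Finset.image_insert]
        have hmk2 : mkS m (2*j+2) = insert x M := by
          rw [hM]
          unfold mkS
          rw [Finset.range_add_one (n := 2*j+1), Finset.filter_insert, if_neg (by simp),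
            Finset.range_add_one (n := 2*j), Finset.filter_insert, if_pos (by simp),
            Finset.image_insert]
        have hxU : x ∈ U := Finset.mem_sdiff.mpr hx1
        have hyU : y ∈ U := by
          rw [hal] at hy1
          rw [hU, Finset.mem_sdiff]
          exact ⟨hy1.1, fun h => hy1.2 (Finset.mem_insert_of_mem h)⟩
        have hyx : y ≠ x := by
          rw [hal] at hy1
          intro h
          exact hy1.2 (by rw [h]; exact Finset.mem_insert_self _ _)
        have hMsub : M ⊆ alS m (2*j) := by
          rw [hM]; unfold mkS alS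
          exact Finset.image_subset_image (Finset.filter_subset _ _)
        have hdisj : Disjoint M U := by
          rw [Finset.disjoint_left]
          intro z hz hzU
          exact (Finset.mem_sdiff.mp hzU).2 (hMsub hz)
        have hpick : x = pick f M U := by
          have := hσ (2*j) (by omega) (by simp)
          rw [strat, mk_ofFn, al_ofFn] at this
          exact this
        have hMU : M ∪ U ⊆ Finset.Icc 1 N := by
          apply Finset.union_subset
          · exact hMsub.trans (hleg (2*j) (by omega)).1
          · rw [hU]; exact Finset.sdiff_subset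
        have hst := step f M U x y hxU hyU hyx hdisj
          (by rw [hpick]; exact pick_max f M U ⟨x, hxU⟩ y hyU)
          (fun X hX hxX hyX => hD x y X hyx.symm (hX.trans hMU) (hMU (Finset.mem_union_right _ hxU))
            (hMU (Finset.mem_union_right _ hyU)) hxX hyX)
        have hUe : (U.erase x).erase y = Finset.Icc 1 N \ alS m (2*j+2) := by
          rw [hal2, hU]
          ext z
          simp only [Finset.mem_erase, Finset.mem_sdiff, Finset.mem_insert, not_or]
          tauto
        have e2 : 2 * (j+1) = 2*j+2 := by ring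
        rw [e2, hmk2, ← hUe]
        push_cast
        linarith
    rcases Nat.even_or_odd' N with ⟨j, hj | hj⟩
    · have h1 := hpot j (by omega)
      rw [← hj] at h1
      have hfull : Finset.Icc 1 N \ alS m N = ∅ := by
        rw [← Finset.card_eq_zero, Finset.card_sdiff_of_subset (hleg N le_rfl).1,
          (hleg N le_rfl).2]
        simp
      rw [hfull, Psi_empty] at h1
      apply hfP
      have : (N : ℝ) = 2 * j := by rw [hj]; push_cast; ring
      rw [this] at h0
      linarith
    · have h1 := hpot j (by omega)
      have hpos : 0 < Psi f (mkS m (2*j)) (Finset.Icc 1 N \ alS m (2*j)) := by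
        have : (N : ℝ) = 2 * j + 1 := by rw [hj]; push_cast; ring
        rw [this] at h0
        linarith
      obtain ⟨R, hR, hfR⟩ := Psi_mono_ex _ _ _ hpos
      have hx1 := hmem (2*j) (by omega)
      have hU : Finset.Icc 1 N \ alS m (2*j) = {m (2*j)} := by
        have hc : (Finset.Icc 1 N \ alS m (2*j)).card = 1 := by
          rw [Finset.card_sdiff_of_subset (hleg (2*j) (by omega)).1, (hleg (2*j) (by omega)).2]
          simp; omega
        obtain ⟨z, hz⟩ := Finset.card_eq_one.mp hc
        have : m (2*j) ∈ Finset.Icc 1 N \ alS m (2*j) := Finset.mem_sdiff.mpr hx1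
        rw [hz, Finset.mem_singleton] at this
        rw [hz, this]
      apply hP _ _ _ (hfP _ hfR)
      have hmk1 : mkS m N = insert (m (2*j)) (mkS m (2*j)) := by
        rw [hj]
        unfold mkS
        rw [Finset.range_add_one, Finset.filter_insert, if_pos (by simp), Finset.image_insert]
      rw [hmk1]
      apply Finset.union_subset
      · exact Finset.subset_insert _ _
      · rw [hU] at hR
        intro z hz
        have := hR hz
        rw [Finset.mem_singleton] at this
        rw [this]; exact Finset.mem_insert_self _ _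

end Pool.Agent.Helper38.VdW
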