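import Mathlib
import Pool.Agent.Helper38.VdW.Potential
import Pool.Agent.Helper38.VdW.Count

set_option autoImplicit false

namespace Pool.Agent.Helper38.VdW

open Finset

theorem Psi_cnt {ι : Type} (S : Finset ι) (A : ι → Finset ℕ) (V : Finset ℕ)
    (hA : ∀ i ∈ S, A i ⊆ V) :
    Psi (fun X => (cnt S A X : ℝ)) ∅ V = ∑ i ∈ S, (1 / 2 : ℝ) ^ (A i).card := by
  classical
  unfold Psi cnt
  simp only [Finset.empty_union, Finset.card_filter, Nat.cast_sum, Nat.cast_ite, Nat.cast_one,
    Nat.cast_zero]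
  rw [Finset.sum_comm, Finset.sum_div]
  apply Finset.sum_congr rfl
  intro i hi
  have h1 : (∑ R ∈ V.powerset, if A i ⊆ R then (1 : ℝ) else 0) = 2 ^ (V.card - (A i).card) := by
    rw [← Finset.sum_filter, Finset.sum_const]
    have : V.powerset.filter (fun R => A i ⊆ R) = Finset.Icc (A i) V := by
      ext R; simp [Finset.mem_Icc]; tauto
    rw [this, Finset.card_Icc_finset (hA i hi)]
    simp
  rw [h1]
  have hle : (A i).card ≤ V.card := Finset.card_le_card (hA i hi)
  rw [div_pow, one_pow, pow_sub₀ _ (by norm_num) hle]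
  field_simp

theorem card_ap (n : ℕ) (p : ℕ × ℕ) (hp : 1 ≤ p.2) : (ap n p).card = n := by
  unfold ap
  rw [Finset.card_image_of_injective, Finset.card_range]
  intro i j hij
  have : i * p.2 = j * p.2 := by simpa using hij
  exact Nat.eq_of_mul_eq_mul_right hp this

theorem ap_sub (N n : ℕ) (hn : 1 ≤ n) (p : ℕ × ℕ) (hp : p ∈ fam N n) :
    ap n p ⊆ Finset.Icc 1 N := by
  intro z hz
  obtain ⟨i, hi, rfl⟩ := mem_ap.mp hz
  obtain ⟨f1, f2, f3, f4, f5⟩ := mem_fam.mp hp
  have : i * p.2 ≤ (n - 1) * p.2 := Nat.mul_le_mul_right _ (by omega)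
  rw [Finset.mem_Icc]
  omega

theorem inter_small (n : ℕ) (p q : ℕ × ℕ) (hp : 1 ≤ p.2) (h : p.2 < q.2) :
    2 * (ap n p ∩ ap n q).card ≤ n + 1 := by
  classical
  set I := (Finset.range n).filter (fun i => p.1 + i * p.2 ∈ ap n q) with hI
  have h1 : (ap n p ∩ ap n q).card ≤ I.card := by
    have : ap n p ∩ ap n q ⊆ I.image (fun i => p.1 + i * p.2) := by
      intro z hz
      rw [Finset.mem_inter] at hz
      obtain ⟨i, hi, rfl⟩ := mem_ap.mp hz.1
      rw [Finset.mem_image]
      exact ⟨i, by rw [hI, Finset.mem_filter, Finset.mem_range]; exact ⟨hi, hz.2⟩, rfl⟩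
    exact (Finset.card_le_card this).trans Finset.card_image_le
  have h2 : Disjoint I (I.image (fun i => i + 1)) := by
    rw [Finset.disjoint_left]
    intro i hi hi2
    rw [Finset.mem_image] at hi2
    obtain ⟨j, hj, hji⟩ := hi2
    rw [hI, Finset.mem_filter] at hi hj
    obtain ⟨k, hk, hk2⟩ := mem_ap.mp hj.2
    obtain ⟨l, hl, hl2⟩ := mem_ap.mp hi.2
    rw [← hji] at hl2
    have e1 : q.1 + l * q.2 = q.1 + k * q.2 + p.2 := by
      rw [hl2, hk2]; ring
    have hkl : k < l := by
      by_contra hcon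
      push Not at hcon
      have : l * q.2 ≤ k * q.2 := Nat.mul_le_mul_right _ hcon
      omega
    have : (k + 1) * q.2 ≤ l * q.2 := Nat.mul_le_mul_right _ hkl
    have e2 : (k + 1) * q.2 = k * q.2 + q.2 := by ring
    omega
  have h3 : I ∪ I.image (fun i => i + 1) ⊆ Finset.range (n + 1) := by
    intro z hz
    rw [Finset.mem_union, Finset.mem_image] at hz
    rw [Finset.mem_range]
    rcases hz with hz | ⟨j, hj, rfl⟩
    · rw [hI, Finset.mem_filter, Finset.mem_range] at hz; omega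
    · rw [hI, Finset.mem_filter, Finset.mem_range] at hj; omega
  have h4 := Finset.card_le_card h3
  rw [Finset.card_union_of_disjoint h2, Finset.card_range,
    Finset.card_image_of_injective _ (add_left_injective 1)] at h4
  omega

theorem un_card (N n : ℕ) (q : (ℕ × ℕ) × (ℕ × ℕ)) (hq : q ∈ cross N n) :
    2 * n - (n + 1) / 2 ≤ (un n q).card := by
  rw [cross, Finset.mem_filter, Finset.mem_product] at hq
  obtain ⟨⟨h1, h2⟩, h3, _⟩ := hq
  have hp1 := (mem_fam.mp h1).2.1
  have hp2 := (mem_fam.mp h2).2.1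
  have h4 := inter_small n q.1 q.2 hp1 h3
  have h5 := Finset.card_union_add_card_inter (ap n q.1) (ap n q.2)
  rw [card_ap n _ hp1, card_ap n _ hp2] at h5
  unfold un
  omega

theorem count_pair (N n u v : ℕ) (huv : u < v) :
    ((fam N n).filter (fun q => u ∈ ap n q ∧ v ∈ ap n q)).card ≤ n * n := by
  classical
  have hsub : (fam N n).filter (fun q => u ∈ ap n q ∧ v ∈ ap n q) ⊆
      ((Finset.range n) ×ˢ (Finset.range n)).biUnion (fun ij =>
        (fam N n).filter (fun q => q.1 + ij.1 * q.2 = u ∧ q.1 + ij.2 * q.2 = v)) := by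
    intro q hq
    rw [Finset.mem_filter] at hq
    obtain ⟨hqf, hu, hv⟩ := hq
    obtain ⟨i, hi, hiu⟩ := mem_ap.mp hu
    obtain ⟨j, hj, hjv⟩ := mem_ap.mp hv
    rw [Finset.mem_biUnion]
    refine ⟨(i, j), ?_, ?_⟩
    · rw [Finset.mem_product, Finset.mem_range, Finset.mem_range]; exact ⟨hi, hj⟩
    · rw [Finset.mem_filter]; exact ⟨hqf, hiu, hjv⟩
  refine (Finset.card_le_card hsub).trans ?_
  have := Finset.card_biUnion_le_card_mul ((Finset.range n) ×ˢ (Finset.range n)) (fun ij =>
        (fam N n).filter (fun q => q.1 + ij.1 * q.2 = u ∧ q.1 + ij.2 * q.2 = v)) 1 (by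
    intro ij _
    rw [Finset.card_le_one]
    intro a ha b hb
    rw [Finset.mem_filter] at ha hb
    obtain ⟨_, ha1, ha2⟩ := ha
    obtain ⟨_, hb1, hb2⟩ := hb
    have hij : ij.1 < ij.2 := by
      by_contra hcon
      push Not at hcon
      have : ij.2 * a.2 ≤ ij.1 * a.2 := Nat.mul_le_mul_right _ hcon
      omega
    obtain ⟨e, he⟩ : ∃ e, ij.2 = ij.1 + e := ⟨ij.2 - ij.1, by omega⟩
    have hepos : 0 < e := by omega
    have ea : ij.2 * a.2 = ij.1 * a.2 + e * a.2 := by rw [he]; ring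
    have eb : ij.2 * b.2 = ij.1 * b.2 + e * b.2 := by rw [he]; ring
    have : e * a.2 = e * b.2 := by omega
    have h2 : a.2 = b.2 := Nat.eq_of_mul_eq_mul_left hepos this
    have h1 : a.1 = b.1 := by rw [h2] at ha1; omega
    exact Prod.ext h1 h2)
  simpa using this

theorem cross_card (N n : ℕ) : (cross N n).card ≤ (fam N n).card * (n * n * (n * n)) := by
  classical
  have hsub : cross N n ⊆ (fam N n).biUnion (fun p =>
      ((ap n p ×ˢ ap n p).filter (fun uv => uv.1 < uv.2)).biUnion (fun uv =>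
        ((fam N n).filter (fun q => uv.1 ∈ ap n q ∧ uv.2 ∈ ap n q)).image (fun q => (p, q)))) := by
    intro r hr
    rw [cross, Finset.mem_filter, Finset.mem_product] at hr
    obtain ⟨⟨h1, h2⟩, _, h4⟩ := hr
    obtain ⟨u, hu, v, hv, huv⟩ := Finset.one_lt_card.mp (show 1 < _ from h4)
    rw [Finset.mem_inter] at hu hv
    rw [Finset.mem_biUnion]
    refine ⟨r.1, h1, ?_⟩
    rw [Finset.mem_biUnion]
    rcases lt_or_gt_of_ne huv with hlt | hlt
    · refine ⟨(u, v), ?_, ?_⟩
      · rw [Finset.mem_filter, Finset.mem_product]; exact ⟨⟨hu.1, hv.1⟩, hlt⟩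
      · rw [Finset.mem_image]
        exact ⟨r.2, by rw [Finset.mem_filter]; exact ⟨h2, hu.2, hv.2⟩, rfl⟩
    · refine ⟨(v, u), ?_, ?_⟩
      · rw [Finset.mem_filter, Finset.mem_product]; exact ⟨⟨hv.1, hu.1⟩, hlt⟩
      · rw [Finset.mem_image]
        exact ⟨r.2, by rw [Finset.mem_filter]; exact ⟨h2, hv.2, hu.2⟩, rfl⟩
  refine (Finset.card_le_card hsub).trans ?_
  apply Finset.card_biUnion_le_card_mul
  intro p hp
  refine (Finset.card_biUnion_le_card_mul _ _ (n * n) ?_).trans ?_
  · intro uv huv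
    rw [Finset.mem_filter] at huv
    exact Finset.card_image_le.trans (count_pair N n _ _ huv.2)
  · apply Nat.mul_le_mul_right
    refine (Finset.card_filter_le _ _).trans ?_
    rw [Finset.card_product, card_ap n p (mem_fam.mp hp).2.1]

theorem fam_card_sum (N q : ℕ) (hq : 1 ≤ q) :
    ((fam N (q + 1)).card : ℝ) = ∑ d ∈ Finset.Icc 1 (N / q), ((N : ℝ) - q * d) := by
  have h1 : (fam N (q + 1)).card = ∑ d ∈ Finset.Icc 1 N, (N - q * d) := by
    unfold fam
    rw [Finset.card_filter, Finset.sum_product_right]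
    apply Finset.sum_congr rfl
    intro d _
    rw [← Finset.card_filter]
    have : (Finset.Icc 1 N).filter (fun a => a + (q + 1 - 1) * d ≤ N) = Finset.Icc 1 (N - q * d) := by
      ext a
      simp only [Finset.mem_filter, Finset.mem_Icc, Nat.add_sub_cancel]
      omega
    rw [this]; simp
  have h2 : ∑ d ∈ Finset.Icc 1 (N / q), (N - q * d) = ∑ d ∈ Finset.Icc 1 N, (N - q * d) := by
    apply Finset.sum_subset
    · apply Finset.Icc_subset_Icc_right
      exact Nat.div_le_self _ _
    · intro d _ hd2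
      rw [Finset.mem_Icc] at hd2
      have hd3 : N / q < d ∨ d < 1 := by omega
      rcases hd3 with hd3 | hd3
      · have := (Nat.div_lt_iff_lt_mul (by omega : 0 < q)).mp hd3
        rw [Nat.mul_comm] at this
        omega
      · have : d = 0 := by omega
        subst this
        simp_all
  rw [h1, ← h2, Nat.cast_sum]
  apply Finset.sum_congr rfl
  intro d hd
  rw [Finset.mem_Icc] at hd
  have : q * d ≤ N := by
    rw [Nat.mul_comm]
    exact (Nat.le_div_iff_mul_le (by omega)).mp hd.2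
  rw [Nat.cast_sub this]
  push_cast
  ring

theorem sum_closed (N q : ℝ) (D : ℕ) :
    ∑ d ∈ Finset.Icc 1 D, (N - q * d) = N * D - q * D * (D + 1) / 2 := by
  induction D with
  | zero => simp
  | succ D ih =>
    rw [Finset.sum_Icc_succ_top (by omega), ih]
    push_cast
    ring

theorem fam_lower (N q : ℕ) (hq : 1 ≤ q) (hN : q ≤ N) :
    ((N : ℝ) - q) ^ 2 / (2 * q) ≤ ((fam N (q + 1)).card : ℝ) := by
  rw [fam_card_sum N q hq, sum_closed]
  set D := N / q with hD
  have hqR : (0 : ℝ) < q := by exact_mod_cast hq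
  have hmod := Nat.div_add_mod N q
  rw [← hD] at hmod
  set r := N % q with hr
  have hrq : r < q := Nat.mod_lt _ (by omega)
  have e1 : (N : ℝ) = q * D + r := by
    have : (N : ℝ) = ((q * D + r : ℕ) : ℝ) := by rw [hmod]
    rw [this]; push_cast; ring
  have hrR : (r : ℝ) < q := by exact_mod_cast hrq
  have hr0 : (0 : ℝ) ≤ r := Nat.cast_nonneg _
  have hD0 : (0 : ℝ) ≤ D := Nat.cast_nonneg _
  have hNq : (q : ℝ) ≤ N := by exact_mod_cast hN
  rw [div_le_iff₀ (by positivity)]
  -- D q > N - q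
  have h2 : (N : ℝ) - q ≤ D * q := by nlinarith
  have h3 : ((N : ℝ) * D - q * D * (D + 1) / 2) * (2 * q) = (D * q) * (N + r - q) := by
    rw [e1]; ring
  rw [h3]
  calc ((N : ℝ) - q) ^ 2 = (N - q) * (N - q) := by ring
    _ ≤ (D * q) * (N - q) := mul_le_mul_of_nonneg_right h2 (by linarith)
    _ ≤ (D * q) * (N + r - q) := by
        apply mul_le_mul_of_nonneg_left _ (by positivity)
        linarith

theorem fam_upper (N q : ℕ) (hq : 1 ≤ q) :
    ((fam N (q + 1)).card : ℝ) ≤ (N : ℝ) ^ 2 / (2 * q) := by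
  rw [fam_card_sum N q hq, sum_closed]
  set D := N / q with hD
  have hqR : (0 : ℝ) < q := by exact_mod_cast hq
  have hmod := Nat.div_add_mod N q
  rw [← hD] at hmod
  set r := N % q with hr
  have hrq : r < q := Nat.mod_lt _ (by omega)
  have e1 : (N : ℝ) = q * D + r := by
    have : (N : ℝ) = ((q * D + r : ℕ) : ℝ) := by rw [hmod]
    rw [this]; push_cast; ring
  have hrR : (r : ℝ) < q := by exact_mod_cast hrq
  have hr0 : (0 : ℝ) ≤ r := Nat.cast_nonneg _
  have hD0 : (0 : ℝ) ≤ D := Nat.cast_nonneg _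
  rw [le_div_iff₀ (by positivity)]
  have h3 : ((N : ℝ) * D - q * D * (D + 1) / 2) * (2 * q) = (D * q) * (N + r - q) := by
    rw [e1]; ring
  rw [h3]
  have hN0 : (0 : ℝ) ≤ N := Nat.cast_nonneg _
  calc (D * q : ℝ) * (N + r - q) ≤ (D * q) * N := by
        apply mul_le_mul_of_nonneg_left _ (by positivity)
        linarith
    _ ≤ N * N := by
        apply mul_le_mul_of_nonneg_right _ hN0
        nlinarith
    _ = (N : ℝ) ^ 2 := by ring

end Pool.Agent.Helper38.VdW
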