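import Mathlib
import Pool.Agent.Helper38.VdW.Bounds

set_option autoImplicit false

namespace Pool.Agent.Helper38.VdW

open Finset

/-- The first player has a winning (Weak Win) strategy in the `(N, n)` van der Waerden game:
`σ` maps the list of moves made so far to his next move (moves with even index are his). -/
def FirstPlayerWins (N n : ℕ) : Prop :=
  ∃ σ : List ℕ → ℕ, ∀ m : ℕ → ℕ,
    (∀ k < N, Even k → m k = σ (List.ofFn (fun i : Fin k => m i.val))) →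
    (∀ k < N, Odd k → m k ∈ Finset.Icc 1 N ∧ ∀ i < k, m i ≠ m k) →
    (∀ k < N, Even k → m k ∈ Finset.Icc 1 N ∧ ∀ i < k, m i ≠ m k) ∧
    ∃ a d : ℕ, 0 < d ∧ ∀ i < n, ∃ k < N, Even k ∧ m k = a + i * d

/-- the function whose expected value is the potential -/
noncomputable def fval (N n : ℕ) (X : Finset ℕ) : ℝ :=
  (cnt (fam N n) (ap n) X : ℝ) - cnt (fam N (n + 1)) (ap (n + 1)) X - cnt (cross N n) (un n) X

theorem fval_diff (N n : ℕ) (hn : 1 ≤ n) (x y : ℕ) (X : Finset ℕ) (hxy : x ≠ y)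
    (hx : x ∉ X) (hy : y ∉ X) :
    fval N n (insert x (insert y X)) - fval N n (insert x X) - fval N n (insert y X)
      + fval N n X ≤ 1 := by
  have h1 := cnt_diff (fam N n) (ap n) X x y hxy hx hy
  have h2 := cnt_diff (fam N (n + 1)) (ap (n + 1)) X x y hxy hx hy
  have h3 := cnt_diff (cross N n) (un n) X x y hxy hx hy
  have hk := key N n hn x y hxy (insert x (insert y X))
  have hk' : ((((fam N n).filter (fun p => x ∈ ap n p ∧ y ∈ ap n p ∧
      ap n p ⊆ insert x (insert y X))).card : ℕ) : ℝ) ≤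
      1 + (((fam N (n + 1)).filter (fun p => x ∈ ap (n + 1) p ∧ y ∈ ap (n + 1) p ∧
        ap (n + 1) p ⊆ insert x (insert y X))).card : ℝ)
      + (((cross N n).filter (fun q => x ∈ un n q ∧ y ∈ un n q ∧
        un n q ⊆ insert x (insert y X))).card : ℝ) := by exact_mod_cast hk
  unfold fval
  linarith

theorem Psi_fval (N n : ℕ) (hn : 1 ≤ n) :
    Psi (fval N n) ∅ (Finset.Icc 1 N) =
      (fam N n).card * (1 / 2 : ℝ) ^ n - (fam N (n + 1)).card * (1 / 2 : ℝ) ^ (n + 1)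
        - ∑ q ∈ cross N n, (1 / 2 : ℝ) ^ (un n q).card := by
  have hlin : Psi (fval N n) ∅ (Finset.Icc 1 N) =
      Psi (fun X => (cnt (fam N n) (ap n) X : ℝ)) ∅ (Finset.Icc 1 N)
      - Psi (fun X => (cnt (fam N (n + 1)) (ap (n + 1)) X : ℝ)) ∅ (Finset.Icc 1 N)
      - Psi (fun X => (cnt (cross N n) (un n) X : ℝ)) ∅ (Finset.Icc 1 N) := by
    unfold Psi fval
    rw [Finset.sum_sub_distrib, Finset.sum_sub_distrib, sub_div, sub_div]
  rw [hlin, Psi_cnt _ _ _ (fun p hp => ap_sub N n hn p hp),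
    Psi_cnt _ _ _ (fun p hp => ap_sub N (n + 1) (by omega) p hp)]
  · rw [Psi_cnt]
    · have e1 : ∑ i ∈ fam N n, (1 / 2 : ℝ) ^ (ap n i).card = (fam N n).card * (1 / 2 : ℝ) ^ n := by
        rw [Finset.sum_congr rfl (fun p hp => by rw [card_ap n p (mem_fam.mp hp).2.1]),
          Finset.sum_const, nsmul_eq_mul]
      have e2 : ∑ i ∈ fam N (n + 1), (1 / 2 : ℝ) ^ (ap (n + 1) i).card =
          (fam N (n + 1)).card * (1 / 2 : ℝ) ^ (n + 1) := by
        rw [Finset.sum_congr rfl (fun p hp => by rw [card_ap (n + 1) p (mem_fam.mp hp).2.1]),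
          Finset.sum_const, nsmul_eq_mul]
      rw [e1, e2]
    · intro q hq
      rw [cross, Finset.mem_filter, Finset.mem_product] at hq
      exact Finset.union_subset (ap_sub N n hn _ hq.1.1) (ap_sub N n hn _ hq.1.2)

theorem cross_sum (N n : ℕ) :
    ∑ q ∈ cross N n, (1 / 2 : ℝ) ^ (un n q).card ≤
      (fam N n).card * ((n : ℝ) ^ 4 * (1 / 2 : ℝ) ^ (2 * n - (n + 1) / 2)) := by
  calc ∑ q ∈ cross N n, (1 / 2 : ℝ) ^ (un n q).card
      ≤ ∑ q ∈ cross N n, (1 / 2 : ℝ) ^ (2 * n - (n + 1) / 2) := by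
        apply Finset.sum_le_sum
        intro q hq
        exact pow_le_pow_of_le_one (by norm_num) (by norm_num) (un_card N n q hq)
    _ = (cross N n).card * (1 / 2 : ℝ) ^ (2 * n - (n + 1) / 2) := by
        rw [Finset.sum_const, nsmul_eq_mul]
    _ ≤ ((fam N n).card * (n * n * (n * n)) : ℕ) * (1 / 2 : ℝ) ^ (2 * n - (n + 1) / 2) := by
        apply mul_le_mul_of_nonneg_right _ (by positivity)
        exact_mod_cast cross_card N n
    _ = _ := by push_cast; ring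

/-- the error term -/
noncomputable def del (n : ℕ) : ℝ := (n : ℝ) ^ 4 * (1 / 2 : ℝ) ^ (n - (n + 1) / 2)

theorem Psi_lower (N n : ℕ) (hn : 2 ≤ n) (hN : n ≤ N) (hdel : del n ≤ 1) :
    (1 / 2 : ℝ) ^ n * ((N : ℝ) ^ 2 * (1 - 2 * del n) / (4 * n) - N) ≤
      Psi (fval N n) ∅ (Finset.Icc 1 N) := by
  rw [Psi_fval N n (by omega)]
  have h1 := cross_sum N n
  have e1 : (1 / 2 : ℝ) ^ (2 * n - (n + 1) / 2) =
      (1 / 2 : ℝ) ^ n * (1 / 2 : ℝ) ^ (n - (n + 1) / 2) := by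
    rw [← pow_add]; congr 1; omega
  rw [e1] at h1
  have h1' : ∑ q ∈ cross N n, (1 / 2 : ℝ) ^ (un n q).card ≤
      (1 / 2 : ℝ) ^ n * ((fam N n).card * del n) := by
    refine h1.trans (le_of_eq ?_)
    unfold del; ring
  have hnR : (0 : ℝ) < n := by exact_mod_cast (by omega : 0 < n)
  have hnN : (n : ℝ) ≤ N := by exact_mod_cast hN
  have hup := fam_upper N n (by omega)
  have hlow : ((N : ℝ) - n) ^ 2 / (2 * n) ≤ ((fam N n).card : ℝ) := by
    have := fam_lower N (n - 1) (by omega) (by omega)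
    rw [Nat.sub_add_cancel (by omega : 1 ≤ n)] at this
    refine le_trans ?_ this
    have hc : ((n - 1 : ℕ) : ℝ) = n - 1 := by
      rw [Nat.cast_sub (by omega)]; simp
    rw [hc]
    have h2n : (2 : ℝ) ≤ n := by exact_mod_cast hn
    apply div_le_div₀
    · positivity
    · nlinarith
    · linarith
    · linarith
  have e2 : (1 / 2 : ℝ) ^ (n + 1) = (1 / 2 : ℝ) ^ n * (1 / 2) := pow_succ _ _
  rw [e2]
  have hpow : (0 : ℝ) < (1 / 2 : ℝ) ^ n := by positivity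
  have hkey : (N : ℝ) ^ 2 * (1 - 2 * del n) / (4 * n) - N ≤
      (fam N n).card * (1 - del n) - (fam N (n + 1)).card * (1 / 2) := by
    have hd1 : 0 ≤ 1 - del n := by linarith
    have hd0 : 0 ≤ del n := by unfold del; positivity
    have s1 : ((N : ℝ) - n) ^ 2 / (2 * n) * (1 - del n) ≤ (fam N n).card * (1 - del n) :=
      mul_le_mul_of_nonneg_right hlow hd1
    have s2 : (N : ℝ) ^ 2 * (1 - 2 * del n) / (4 * n) - N ≤
        ((N : ℝ) - n) ^ 2 / (2 * n) * (1 - del n) - (N : ℝ) ^ 2 / (2 * n) * (1 / 2) := by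
      have : ((N : ℝ) - n) ^ 2 / (2 * n) * (1 - del n) - (N : ℝ) ^ 2 / (2 * n) * (1 / 2)
          - ((N : ℝ) ^ 2 * (1 - 2 * del n) / (4 * n) - N) =
          del n * N + n / 2 * (1 - del n) := by
        field_simp
        ring
      have hpos : 0 ≤ del n * N + n / 2 * (1 - del n) := by positivity
      linarith
    have s3 : ((fam N (n + 1)).card : ℝ) * (1 / 2) ≤ (N : ℝ) ^ 2 / (2 * n) * (1 / 2) :=
      mul_le_mul_of_nonneg_right hup (by norm_num)
    linarith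
  calc (1 / 2 : ℝ) ^ n * ((N : ℝ) ^ 2 * (1 - 2 * del n) / (4 * n) - N)
      ≤ (1 / 2 : ℝ) ^ n * ((fam N n).card * (1 - del n) - (fam N (n + 1)).card * (1 / 2)) :=
        mul_le_mul_of_nonneg_left hkey hpow.le
    _ = (fam N n).card * (1 / 2 : ℝ) ^ n - (fam N (n + 1)).card * ((1 / 2 : ℝ) ^ n * (1 / 2))
        - (1 / 2 : ℝ) ^ n * ((fam N n).card * del n) := by ring
    _ ≤ _ := by linarith

theorem del_tendsto : Filter.Tendsto del Filter.atTop (nhds 0) := by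
  have h1 : ∀ n : ℕ, del n ≤ (n : ℝ) ^ 4 * (Real.sqrt (1 / 2)) ^ n * 2 := by
    intro n
    unfold del
    have hs : Real.sqrt (1 / 2) ^ 2 = 1 / 2 := Real.sq_sqrt (by norm_num)
    have hs0 : 0 ≤ Real.sqrt (1 / 2) := Real.sqrt_nonneg _
    have hs1 : Real.sqrt (1 / 2) ≤ 1 := by
      rw [Real.sqrt_le_one]; norm_num
    have h2 : (1 / 2 : ℝ) ^ (n - (n + 1) / 2) ≤ Real.sqrt (1 / 2) ^ n * 2 := by
      rw [← hs, ← pow_mul]
      have h3 : n ≤ 2 * (n - (n + 1) / 2) + 1 := by omega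
      have h4 : Real.sqrt (1 / 2) ^ (2 * (n - (n + 1) / 2) + 1) ≤ Real.sqrt (1 / 2) ^ n :=
        pow_le_pow_of_le_one hs0 hs1 h3
      have h5 : (1 / 2 : ℝ) ≤ Real.sqrt (1 / 2) := by
        rw [Real.le_sqrt' (by norm_num)]; norm_num
      rw [hs]
      rw [pow_succ] at h4
      have h6 : 0 ≤ Real.sqrt (1 / 2) ^ (2 * (n - (n + 1) / 2)) := by positivity
      nlinarith
    calc (n : ℝ) ^ 4 * (1 / 2 : ℝ) ^ (n - (n + 1) / 2)
        ≤ (n : ℝ) ^ 4 * (Real.sqrt (1 / 2) ^ n * 2) :=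
          mul_le_mul_of_nonneg_left h2 (by positivity)
      _ = _ := by ring
  have h2 : Filter.Tendsto (fun n : ℕ => (n : ℝ) ^ 4 * (Real.sqrt (1 / 2)) ^ n * 2)
      Filter.atTop (nhds 0) := by
    have hlt : Real.sqrt (1 / 2) < 1 := by
      rw [Real.sqrt_lt' (by norm_num)]; norm_num
    have := tendsto_pow_const_mul_const_pow_of_abs_lt_one 4
      (r := Real.sqrt (1 / 2)) (by rw [abs_of_nonneg (Real.sqrt_nonneg _)]; exact hlt)
    simpa using this.mul_const 2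
  exact squeeze_zero (fun n => by unfold del; positivity) h1 h2

theorem wins_of_Psi (N n : ℕ) (hn : 1 ≤ n)
    (h : (N : ℝ) / 8 < Psi (fval N n) ∅ (Finset.Icc 1 N)) : FirstPlayerWins N n := by
  obtain ⟨σ, hσ⟩ := maker (fval N n) (fun X => ∃ p : ℕ × ℕ, 1 ≤ p.2 ∧ ap n p ⊆ X) N
    (fun X Y hXY ⟨p, hp, hpX⟩ => ⟨p, hp, hpX.trans hXY⟩)
    (by
      intro X hX
      have h1 : 0 < cnt (fam N n) (ap n) X := by
        rw [Nat.pos_iff_ne_zero]
        intro h0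
        unfold fval at hX
        rw [h0] at hX
        have a1 : (0 : ℝ) ≤ cnt (fam N (n + 1)) (ap (n + 1)) X := Nat.cast_nonneg _
        have a2 : (0 : ℝ) ≤ cnt (cross N n) (un n) X := Nat.cast_nonneg _
        push_cast at hX
        linarith
      unfold cnt at h1
      obtain ⟨p, hp⟩ := Finset.card_pos.mp h1
      rw [Finset.mem_filter] at hp
      exact ⟨p, (mem_fam.mp hp.1).2.1, hp.2⟩)
    (fun x y X hxy _ _ _ hx hy => fval_diff N n hn x y X hxy hx hy) h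
  refine ⟨σ, fun m hm1 hm2 => ?_⟩
  obtain ⟨h1, p, hp, hpX⟩ := hσ m hm1 hm2
  refine ⟨h1, p.1, p.2, hp, ?_⟩
  intro i hi
  have := hpX (mem_ap.mpr ⟨i, hi, rfl⟩)
  unfold mkS at this
  rw [Finset.mem_image] at this
  obtain ⟨k, hk, hke⟩ := this
  rw [Finset.mem_filter, Finset.mem_range] at hk
  exact ⟨k, hk.1, hk.2, hke⟩

theorem main_one (ε : ℝ) (hε : 0 < ε) :
    ∃ n₀ : ℕ, ∀ n ≥ n₀, ∀ N : ℕ, (1 / 2 + ε) * n * 2 ^ n ≤ (N : ℝ) → FirstPlayerWins N n := by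
  have ht : Filter.Tendsto (fun n : ℕ => (1 / 8 + ε / 4) * (1 - 2 * del n) - (1 / 2 : ℝ) ^ n)
      Filter.atTop (nhds ((1 / 8 + ε / 4) * (1 - 2 * 0) - 0)) := by
    apply Filter.Tendsto.sub
    · exact (tendsto_const_nhds.sub (del_tendsto.const_mul 2)).const_mul _
    · exact tendsto_pow_atTop_nhds_zero_of_lt_one (by norm_num) (by norm_num)
  have h1 : ∀ᶠ n : ℕ in Filter.atTop,
      1 / 8 < (1 / 8 + ε / 4) * (1 - 2 * del n) - (1 / 2 : ℝ) ^ n :=
    ht.eventually (lt_mem_nhds (by linarith))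
  have h2 : ∀ᶠ n : ℕ in Filter.atTop, del n < 1 / 2 :=
    del_tendsto.eventually (gt_mem_nhds (by norm_num))
  obtain ⟨n₀, hn₀⟩ := Filter.eventually_atTop.mp ((h1.and h2).and (Filter.eventually_ge_atTop 2))
  refine ⟨n₀, fun n hn N hN => ?_⟩
  obtain ⟨⟨ha, hb⟩, hc⟩ := hn₀ n hn
  have hnR : (2 : ℝ) ≤ n := by exact_mod_cast hc
  have h2n : (1 : ℝ) ≤ 2 ^ n := one_le_pow₀ (by norm_num)
  have h2n2 : (2 : ℝ) ≤ 2 ^ n := by
    calc (2 : ℝ) = 2 ^ 1 := by norm_num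
      _ ≤ 2 ^ n := pow_le_pow_right₀ (by norm_num) (by omega)
  have hnN : n ≤ N := by
    have : (n : ℝ) ≤ N := by
      refine le_trans ?_ hN
      nlinarith [mul_nonneg hε.le (mul_nonneg (by linarith : (0:ℝ) ≤ n) (by linarith : (0:ℝ) ≤ 2 ^ n))]
    exact_mod_cast this
  apply wins_of_Psi N n (by omega)
  refine lt_of_lt_of_le ?_ (Psi_lower N n hc hnN (by linarith))
  have hNpos : (0 : ℝ) < N := by
    have : (0 : ℝ) < n := by linarith
    have h3 : (n : ℝ) ≤ N := by exact_mod_cast hnN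
    linarith
  have hpow : (1 / 2 : ℝ) ^ n * 2 ^ n = 1 := by
    rw [← mul_pow]; norm_num
  have hp0 : (0 : ℝ) < (1 / 2 : ℝ) ^ n := by positivity
  -- N * (1/2)^n / (4 n) >= (1/2 + ε) / 4
  have h4 : 1 / 8 + ε / 4 ≤ (1 / 2 : ℝ) ^ n * N / (4 * n) := by
    rw [le_div_iff₀ (by positivity)]
    have : (1 / 2 : ℝ) ^ n * ((1 / 2 + ε) * n * 2 ^ n) ≤ (1 / 2 : ℝ) ^ n * N :=
      mul_le_mul_of_nonneg_left hN hp0.le
    have h5 : (1 / 2 : ℝ) ^ n * ((1 / 2 + ε) * n * 2 ^ n) = (1 / 2 + ε) * n := by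
      calc (1 / 2 : ℝ) ^ n * ((1 / 2 + ε) * n * 2 ^ n)
          = ((1 / 2 : ℝ) ^ n * 2 ^ n) * ((1 / 2 + ε) * n) := by ring
        _ = _ := by rw [hpow, one_mul]
    rw [h5] at this
    linarith
  have h6 : (1 / 8 + ε / 4) * (1 - 2 * del n) ≤
      (1 / 2 : ℝ) ^ n * N / (4 * n) * (1 - 2 * del n) :=
    mul_le_mul_of_nonneg_right h4 (by linarith)
  have h7 : (1 / 2 : ℝ) ^ n * ((N : ℝ) ^ 2 * (1 - 2 * del n) / (4 * n) - N) =
      N * ((1 / 2 : ℝ) ^ n * N / (4 * n) * (1 - 2 * del n) - (1 / 2 : ℝ) ^ n) := by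
    ring
  rw [h7]
  have h8 : 1 / 8 < (1 / 2 : ℝ) ^ n * N / (4 * n) * (1 - 2 * del n) - (1 / 2 : ℝ) ^ n := by
    linarith
  calc (N : ℝ) / 8 = N * (1 / 8) := by ring
    _ < _ := mul_lt_mul_of_pos_left h8 hNpos

theorem wins_mono (N n n' : ℕ) (h : n ≤ n') (hw : FirstPlayerWins N n') : FirstPlayerWins N n := by
  obtain ⟨σ, hσ⟩ := hw
  refine ⟨σ, fun m h1 h2 => ?_⟩
  obtain ⟨h3, a, d, hd, h4⟩ := hσ m h1 h2
  exact ⟨h3, a, d, hd, fun i hi => h4 i (by omega)⟩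

theorem main_two : ∃ C : ℝ, ∀ N : ℕ, 2 ≤ N → ∀ n : ℕ,
    (n : ℝ) ≤ Real.logb 2 N - Real.logb 2 (Real.logb 2 N) - C → FirstPlayerWins N n := by
  obtain ⟨n₀, hn₀⟩ := main_one (1 / 2) (by norm_num)
  refine ⟨2 * n₀, fun N hN n hn => ?_⟩
  set L := Real.logb 2 N with hL
  have hNR : (2 : ℝ) ≤ N := by exact_mod_cast hN
  have hL1 : 1 ≤ L := by
    rw [hL, Real.le_logb_iff_rpow_le (by norm_num) (by linarith)]
    simpa using hNR
  have hLL : 0 ≤ Real.logb 2 L := Real.logb_nonneg (by norm_num) hL1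
  have hNL : (2 : ℝ) ^ L = N := Real.rpow_logb (by norm_num) (by norm_num) (by linarith)
  have hn0R : (0 : ℝ) ≤ n₀ := Nat.cast_nonneg _
  have hnR : (0 : ℝ) ≤ n := Nat.cast_nonneg _
  rcases le_total n₀ n with h | h
  · apply hn₀ n h N
    have h1 : (2 : ℝ) ^ (n : ℝ) ≤ N / L := by
      calc (2 : ℝ) ^ (n : ℝ) ≤ (2 : ℝ) ^ (L - Real.logb 2 L) :=
            Real.rpow_le_rpow_of_exponent_le (by norm_num) (by linarith)
        _ = N / L := by
            rw [Real.rpow_sub (by norm_num), hNL, Real.rpow_logb (by norm_num) (by norm_num)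
              (by linarith)]
    rw [Real.rpow_natCast] at h1
    rw [le_div_iff₀ (by linarith)] at h1
    have h2 : (n : ℝ) ≤ L := by linarith
    have h3 : (0 : ℝ) < 2 ^ n := by positivity
    calc (1 / 2 + 1 / 2) * (n : ℝ) * 2 ^ n = n * 2 ^ n := by ring
      _ ≤ L * 2 ^ n := mul_le_mul_of_nonneg_right h2 h3.le
      _ = 2 ^ n * L := by ring
      _ ≤ N := h1
  · apply wins_mono N n n₀ h
    apply hn₀ n₀ le_rfl N
    have h1 : (2 * n₀ : ℝ) ≤ L := by linarith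
    have h2 : (2 : ℝ) ^ (2 * n₀) ≤ N := by
      rw [← hNL, ← Real.rpow_natCast]
      apply Real.rpow_le_rpow_of_exponent_le (by norm_num)
      push_cast; linarith
    have h3 : (n₀ : ℝ) ≤ 2 ^ n₀ := by exact_mod_cast (Nat.lt_two_pow_self (n := n₀)).le
    calc (1 / 2 + 1 / 2) * (n₀ : ℝ) * 2 ^ n₀ = n₀ * 2 ^ n₀ := by ring
      _ ≤ 2 ^ n₀ * 2 ^ n₀ := mul_le_mul_of_nonneg_right h3 (by positivity)
      _ = 2 ^ (2 * n₀) := by rw [← pow_add]; congr 1; ring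
      _ ≤ N := h2

end Pool.Agent.Helper38.VdW
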